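import Pool.Agent.helper74.FD.SpecF

/-!
# MP_07c750, project FD, row BM3: the Fejer kernel
-/

set_option autoImplicit false

open MeasureTheory Filter Set
open scoped ContDiff Topology ComplexConjugate

namespace Pool.Agent.FD

/-- the triangle function -/
noncomputable def BM3_K (ξ : ℝ) : ℂ := ((max 0 (1 - |ξ|) : ℝ) : ℂ)

theorem BM3_cont : Continuous BM3_K :=
  Complex.continuous_ofReal.comp (continuous_const.max (continuous_const.sub continuous_abs))

theorem BM3_zero (ξ : ℝ) (h : 1 ≤ |ξ|) : BM3_K ξ = 0 := by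
  unfold BM3_K
  rw [max_eq_left (by linarith), Complex.ofReal_zero]

theorem BM3_norm (ξ : ℝ) : ‖BM3_K ξ‖ ≤ 1 := by
  unfold BM3_K
  rw [Complex.norm_real, Real.norm_eq_abs, abs_of_nonneg (le_max_left _ _)]
  exact max_le (by norm_num) (by linarith [abs_nonneg ξ])

theorem BM3_supp : HasCompactSupport BM3_K := by
  refine HasCompactSupport.intro (isCompact_Icc (a := (-1 : ℝ)) (b := 1)) ?_
  intro ξ hξ
  refine BM3_zero ξ ?_
  by_contra h
  push Not at h
  exact hξ (abs_le.1 h.le)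

theorem BM3_int : Integrable BM3_K := BM3_cont.integrable_of_hasCompactSupport BM3_supp

theorem BM3_line (F : ℝ → ℂ) (hF : Continuous F) :
    ∫ ξ, BM3_K ξ * F ξ = (∫ ξ in (-1 : ℝ)..0, (1 + (ξ : ℂ)) * F ξ) + ∫ ξ in (0 : ℝ)..1, (1 - (ξ : ℂ)) * F ξ := by
  have hc : Continuous fun ξ => BM3_K ξ * F ξ := BM3_cont.mul hF
  have h1 : ∫ ξ, BM3_K ξ * F ξ = ∫ ξ in (-1 : ℝ)..1, BM3_K ξ * F ξ := by
    rw [intervalIntegral.integral_of_le (by norm_num)]
    refine (setIntegral_eq_integral_of_forall_compl_eq_zero fun ξ hξ => ?_).symm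
    rw [BM3_zero ξ, zero_mul]
    by_contra h
    push Not at h
    have := abs_lt.1 h
    exact hξ ⟨this.1, this.2.le⟩
  rw [h1, ← intervalIntegral.integral_add_adjacent_intervals (b := 0) (hc.intervalIntegrable _ _)
    (hc.intervalIntegrable _ _)]
  congr 1
  · refine intervalIntegral.integral_congr fun ξ hξ => ?_
    rw [Set.uIcc_of_le (by norm_num)] at hξ
    show BM3_K ξ * F ξ = (1 + (ξ : ℂ)) * F ξ
    have h2 : BM3_K ξ = 1 + (ξ : ℂ) := by
      unfold BM3_K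
      rw [abs_of_nonpos hξ.2, max_eq_right (by linarith [hξ.1])]
      push_cast
      ring
    rw [h2]
  · refine intervalIntegral.integral_congr fun ξ hξ => ?_
    rw [Set.uIcc_of_le (by norm_num)] at hξ
    show BM3_K ξ * F ξ = (1 - (ξ : ℂ)) * F ξ
    have h2 : BM3_K ξ = 1 - (ξ : ℂ) := by
      unfold BM3_K
      rw [abs_of_nonneg hξ.1, max_eq_right (by linarith [hξ.2])]
      push_cast
      ring
    rw [h2]

theorem BM3_exp (c : ℂ) (hc : c ≠ 0) :
    (∫ ξ in (-1 : ℝ)..0, (1 + (ξ : ℂ)) * Complex.exp (c * ξ)) + (∫ ξ in (0 : ℝ)..1, (1 - (ξ : ℂ)) * Complex.exp (c * ξ)) =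
      (Complex.exp c + Complex.exp (-c) - 2) / c ^ 2 := by
  have hd : ∀ ξ : ℝ, HasDerivAt (fun ξ : ℝ => Complex.exp (c * ξ)) (c * Complex.exp (c * ξ)) ξ := by
    intro ξ
    have h1 : HasDerivAt (fun ξ : ℝ => c * (ξ : ℂ)) (c * 1) ξ := (Complex.ofRealCLM.hasDerivAt (x := ξ)).const_mul c
    have h2 := h1.cexp
    refine h2.congr_deriv ?_
    ring
  have hx : ∀ ξ : ℝ, HasDerivAt (fun ξ : ℝ => (ξ : ℂ)) 1 ξ := fun ξ => Complex.ofRealCLM.hasDerivAt (x := ξ)
  have e1 : ∫ ξ in (-1 : ℝ)..0, (1 + (ξ : ℂ)) * Complex.exp (c * ξ) =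
      ((1 + ((0 : ℝ) : ℂ)) / c - 1 / c ^ 2) * Complex.exp (c * ((0 : ℝ) : ℂ)) -
        ((1 + ((-1 : ℝ) : ℂ)) / c - 1 / c ^ 2) * Complex.exp (c * ((-1 : ℝ) : ℂ)) := by
    refine intervalIntegral.integral_eq_sub_of_hasDerivAt (f := fun ξ : ℝ => ((1 + (ξ : ℂ)) / c - 1 / c ^ 2) * Complex.exp (c * ξ))
      (fun ξ _ => ?_) ?_
    · have h1 := ((((hx ξ).const_add 1).div_const c).sub_const (1 / c ^ 2)).mul (hd ξ)
      refine h1.congr_deriv ?_
      field_simp
      ring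
    · exact Continuous.intervalIntegrable (by fun_prop) _ _
  have e2 : ∫ ξ in (0 : ℝ)..1, (1 - (ξ : ℂ)) * Complex.exp (c * ξ) =
      ((1 - ((1 : ℝ) : ℂ)) / c + 1 / c ^ 2) * Complex.exp (c * ((1 : ℝ) : ℂ)) -
        ((1 - ((0 : ℝ) : ℂ)) / c + 1 / c ^ 2) * Complex.exp (c * ((0 : ℝ) : ℂ)) := by
    refine intervalIntegral.integral_eq_sub_of_hasDerivAt (f := fun ξ : ℝ => ((1 - (ξ : ℂ)) / c + 1 / c ^ 2) * Complex.exp (c * ξ))
      (fun ξ _ => ?_) ?_
    · have h1 := ((((hx ξ).const_sub 1).div_const c).add_const (1 / c ^ 2)).mul (hd ξ)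
      refine h1.congr_deriv ?_
      field_simp
      ring
    · exact Continuous.intervalIntegrable (by fun_prop) _ _
  rw [e1, e2]
  push_cast
  rw [mul_zero, Complex.exp_zero, mul_one, mul_neg, mul_one]
  field_simp
  ring

theorem BM3_fti (x : ℝ) (hx : x ≠ 0) :
    fti BM3_K x = (((1 - Real.cos (2 * Real.pi * x)) / (2 * Real.pi ^ 2 * x ^ 2) : ℝ) : ℂ) := by
  have hp := Real.pi_pos
  unfold fti
  rw [BM3_line _ (by fun_prop)]
  obtain ⟨c, hc⟩ : ∃ c : ℂ, c = ((2 * Real.pi * x : ℝ) : ℂ) * Complex.I := ⟨_, rfl⟩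
  have hc0 : c ≠ 0 := by
    rw [hc]
    refine mul_ne_zero ?_ Complex.I_ne_zero
    rw [Complex.ofReal_ne_zero]
    positivity
  have he : ∀ ξ : ℝ, Complex.exp (((2 * Real.pi * x * ξ : ℝ) : ℂ) * Complex.I) = Complex.exp (c * ξ) := by
    intro ξ
    rw [hc]
    congr 1
    push_cast
    ring
  simp only [he]
  rw [BM3_exp c hc0]
  have h1 : Complex.exp c + Complex.exp (-c) = ((2 * Real.cos (2 * Real.pi * x) : ℝ) : ℂ) := by
    rw [hc, ← neg_mul, Complex.ofReal_mul 2, Complex.ofReal_cos, Complex.cos]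
    push_cast
    ring
  have h2 : c ^ 2 = ((-(2 * Real.pi * x) ^ 2 : ℝ) : ℂ) := by
    rw [hc, mul_pow, Complex.I_sq]
    push_cast
    ring
  rw [h1, h2]
  have h3 : ((2 * Real.cos (2 * Real.pi * x) : ℝ) : ℂ) - 2 = ((2 * Real.cos (2 * Real.pi * x) - 2 : ℝ) : ℂ) := by
    push_cast
    ring
  rw [h3, ← Complex.ofReal_div]
  congr 1
  field_simp
  ring

theorem BM3_fti0 : fti BM3_K 0 = 1 := by
  unfold fti
  rw [BM3_line _ (by fun_prop)]
  simp only [mul_zero, zero_mul, Complex.ofReal_zero, Complex.exp_zero, mul_one]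
  have hx : ∀ ξ : ℝ, HasDerivAt (fun ξ : ℝ => (ξ : ℂ)) 1 ξ := fun ξ => Complex.ofRealCLM.hasDerivAt (x := ξ)
  have e1 : ∫ ξ in (-1 : ℝ)..0, (1 + (ξ : ℂ)) = ((1 + ((0 : ℝ) : ℂ)) ^ 2 / 2) - ((1 + ((-1 : ℝ) : ℂ)) ^ 2 / 2) := by
    refine intervalIntegral.integral_eq_sub_of_hasDerivAt (f := fun ξ : ℝ => (1 + (ξ : ℂ)) ^ 2 / 2) (fun ξ _ => ?_) ?_
    · have h1 := ((((hx ξ).const_add 1).pow 2).div_const 2)
      refine h1.congr_deriv ?_
      simp
    · exact Continuous.intervalIntegrable (by fun_prop) _ _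
  have e2 : ∫ ξ in (0 : ℝ)..1, (1 - (ξ : ℂ)) = (-(1 - ((1 : ℝ) : ℂ)) ^ 2 / 2) - (-(1 - ((0 : ℝ) : ℂ)) ^ 2 / 2) := by
    refine intervalIntegral.integral_eq_sub_of_hasDerivAt (f := fun ξ : ℝ => -(1 - (ξ : ℂ)) ^ 2 / 2) (fun ξ _ => ?_) ?_
    · have h1 := ((((hx ξ).const_sub 1).pow 2).neg.div_const 2)
      refine h1.congr_deriv ?_
      simp
    · exact Continuous.intervalIntegrable (by fun_prop) _ _
  rw [e1, e2]
  push_cast
  norm_num

theorem BM3_proof (hFT0 : FT0_stmt) : BM3_stmt := by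
  have hp := Real.pi_pos
  have hp3 := Real.pi_gt_three
  obtain ⟨h1, -, -, h4, -⟩ := hFT0
  obtain ⟨-, hcont, -, hbd⟩ := h1 BM3_K BM3_int
  have hre : ∀ x : ℝ, (((fti BM3_K x).re : ℝ) : ℂ) = fti BM3_K x := by
    intro x
    by_cases hx : x = 0
    · rw [hx, BM3_fti0]
      simp
    · rw [BM3_fti x hx, Complex.ofReal_re]
  have hval : ∀ x : ℝ, x ≠ 0 → (fti BM3_K x).re = (1 - Real.cos (2 * Real.pi * x)) / (2 * Real.pi ^ 2 * x ^ 2) := by
    intro x hx
    rw [BM3_fti x hx, Complex.ofReal_re]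
  have hnn : ∀ x : ℝ, 0 ≤ (fti BM3_K x).re := by
    intro x
    by_cases hx : x = 0
    · rw [hx, BM3_fti0]
      simp
    · rw [hval x hx]
      have := Real.cos_le_one (2 * Real.pi * x)
      exact div_nonneg (by linarith) (by positivity)
  have hone : ∫ ξ, ‖BM3_K ξ‖ = 1 := by
    have h5 : ∀ ξ, ‖BM3_K ξ‖ = (BM3_K ξ * 1).re := by
      intro ξ
      rw [mul_one]
      unfold BM3_K
      rw [Complex.norm_real, Real.norm_eq_abs, abs_of_nonneg (le_max_left _ _), Complex.ofReal_re]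
    have h6 : fti BM3_K 0 = ∫ ξ, BM3_K ξ * 1 := by
      unfold fti
      simp
    rw [BM3_fti0] at h6
    simp only [h5]
    have h7 : ∫ ξ, (BM3_K ξ * 1).re = (∫ ξ, BM3_K ξ * 1).re := by
      have h8 : Integrable fun ξ => BM3_K ξ * 1 := by simpa using BM3_int
      exact integral_re (𝕜 := ℂ) (f := fun ξ => BM3_K ξ * 1) h8
    rw [h7, ← h6, Complex.one_re]
  have hle1 : ∀ x : ℝ, (fti BM3_K x).re ≤ 1 := by
    intro x
    have h5 := hbd x
    rw [hone] at h5
    exact (Complex.re_le_norm _).trans h5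
  have hle : ∀ x : ℝ, (fti BM3_K x).re ≤ 2 / (1 + x ^ 2) := by
    intro x
    rw [le_div_iff₀ (by positivity)]
    have h5 : (fti BM3_K x).re * x ^ 2 ≤ 1 := by
      by_cases hx : x = 0
      · rw [hx]
        norm_num
      · rw [hval x hx]
        have h6 : (1 - Real.cos (2 * Real.pi * x)) / (2 * Real.pi ^ 2 * x ^ 2) * x ^ 2 =
            (1 - Real.cos (2 * Real.pi * x)) / (2 * Real.pi ^ 2) := by
          field_simp
        rw [h6, div_le_one (by positivity)]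
        have := Real.neg_one_le_cos (2 * Real.pi * x)
        nlinarith
    have h7 := hle1 x
    linarith
  have hc : Continuous fun x => (fti BM3_K x).re := Complex.continuous_re.comp hcont
  have hint : Integrable fun x => (fti BM3_K x).re := by
    have h5 : Integrable fun x : ℝ => 2 * (1 + x ^ 2)⁻¹ := integrable_inv_one_add_sq.const_mul 2
    refine h5.mono' hc.aestronglyMeasurable (Eventually.of_forall fun x => ?_)
    rw [Real.norm_eq_abs, abs_of_nonneg (hnn x)]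
    exact (hle x).trans_eq (by rw [div_eq_mul_inv])
  have hint' : Integrable (fti BM3_K) := by
    have h5 : fti BM3_K = fun x => (((fti BM3_K x).re : ℝ) : ℂ) := by
      funext x
      exact (hre x).symm
    rw [h5]
    exact hint.ofReal
  refine ⟨BM3_K, fun x => (fti BM3_K x).re, 2, BM3_cont, fun ξ h => BM3_zero ξ h.le, hre, hc, hnn, hle, hint, ?_⟩
  have h5 := h4 BM3_K BM3_cont BM3_int hint' 0
  have h6 : BM3_K 0 = 1 := by
    unfold BM3_K
    simp
  rw [h6] at h5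
  have h7 : ft (fti BM3_K) 0 = ∫ x, fti BM3_K x := by
    unfold ft
    simp
  rw [h7] at h5
  have h8 : ((∫ x, (fti BM3_K x).re : ℝ) : ℂ) = ∫ x, fti BM3_K x := by
    rw [← integral_complex_ofReal]
    exact integral_congr_ae (Eventually.of_forall fun x => hre x)
  rw [h5] at h8
  exact_mod_cast h8

end Pool.Agent.FD
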