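import Pool.Agent.helper74.FD.SpecF

/-!
# MP_07c750, project FD, row MUL: smooth cut-offs with small spectrum
-/

set_option autoImplicit false

open MeasureTheory Filter Set
open scoped ContDiff Topology ComplexConjugate

namespace Pool.Agent.FD

theorem MUL_sub (h : ℝ → ℝ) (B x : ℝ) (hB : 0 < B) : ∫ t, B * h (B * (x - t)) = ∫ y, h y := by
  rw [integral_const_mul, integral_sub_left_eq_self (fun t => h (B * t)) volume x,
    Measure.integral_comp_mul_left, abs_of_pos (inv_pos.2 hB), smul_eq_mul, ← mul_assoc,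
    mul_inv_cancel₀ hB.ne', one_mul]

theorem MUL_int (h : ℝ → ℝ) (hh : Integrable h) (B x : ℝ) (hB : 0 < B) :
    Integrable fun t => B * h (B * (x - t)) :=
  ((hh.comp_mul_left' hB.ne').comp_sub_left x).const_mul B

theorem MUL_tail (φ : ℝ → ℝ) (B x d : ℝ) (hB : 0 < B) :
    ∫ t in {t : ℝ | B * d ≤ |B * (x - t)|}, B * φ (B * (x - t)) = ∫ y in {y : ℝ | B * d ≤ |y|}, φ y := by
  have hA : MeasurableSet {y : ℝ | B * d ≤ |y|} := (isClosed_le continuous_const continuous_abs).measurableSet
  have hA' : MeasurableSet {t : ℝ | B * d ≤ |B * (x - t)|} :=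
    (isClosed_le continuous_const (by fun_prop)).measurableSet
  rw [← integral_indicator hA, ← integral_indicator hA', ← MUL_sub ({y : ℝ | B * d ≤ |y|}.indicator φ) B x hB]
  refine integral_congr_ae (Eventually.of_forall fun t => ?_)
  show {t : ℝ | B * d ≤ |B * (x - t)|}.indicator (fun t => B * φ (B * (x - t))) t =
    B * {y : ℝ | B * d ≤ |y|}.indicator φ (B * (x - t))
  by_cases h : B * d ≤ |B * (x - t)|
  · rw [Set.indicator_of_mem (show t ∈ {t : ℝ | B * d ≤ |B * (x - t)|} from h),
      Set.indicator_of_mem (show B * (x - t) ∈ {y : ℝ | B * d ≤ |y|} from h)]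
  · rw [Set.indicator_of_notMem (show t ∉ {t : ℝ | B * d ≤ |B * (x - t)|} from h),
      Set.indicator_of_notMem (show B * (x - t) ∉ {y : ℝ | B * d ≤ |y|} from h), mul_zero]

theorem MUL_cont (φ : ℝ → ℝ) (C B : ℝ) (S : Set ℝ) (hφ : Continuous φ) (h0 : ∀ x, 0 ≤ φ x)
    (hC : ∀ x, φ x ≤ C / (1 + x ^ 2)) (hB : 0 < B) : Continuous (cut φ B S) := by
  have hC0 : 0 ≤ C := by
    have h1 := (h0 0).trans (hC 0)
    simpa using h1
  rw [continuous_iff_continuousAt]
  intro x0
  obtain ⟨m, hm⟩ : ∃ m : ℝ, m = min 1 (B ^ 2) := ⟨_, rfl⟩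
  have hm0 : 0 < m := by rw [hm]; exact lt_min one_pos (by positivity)
  have hm1 : m ≤ 1 := by rw [hm]; exact min_le_left _ _
  have hm2 : m ≤ B ^ 2 := by rw [hm]; exact min_le_right _ _
  have hbi : Integrable (fun t : ℝ => B * (C * (3 / m)) * (1 + (x0 - t) ^ 2)⁻¹) (volume.restrict S) := by
    have h1 : Integrable fun t : ℝ => (1 + (x0 - t) ^ 2)⁻¹ := integrable_inv_one_add_sq.comp_sub_left x0
    exact (h1.const_mul _).restrict
  unfold cut
  refine continuousAt_of_dominated (bound := fun t => B * (C * (3 / m)) * (1 + (x0 - t) ^ 2)⁻¹) ?_ ?_ hbi ?_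
  · exact Eventually.of_forall fun x => (Continuous.aestronglyMeasurable (by fun_prop))
  · have hU : ∀ᶠ x in 𝓝 x0, |x - x0| < 1 := by
      have := Metric.ball_mem_nhds x0 (ε := 1) one_pos
      filter_upwards [this] with x hx
      rwa [Metric.mem_ball, Real.dist_eq] at hx
    filter_upwards [hU] with x hx
    refine Eventually.of_forall fun t => ?_
    rw [Real.norm_eq_abs, abs_of_nonneg (mul_nonneg hB.le (h0 _)), mul_assoc]
    refine mul_le_mul_of_nonneg_left ?_ hB.le
    refine (hC _).trans ?_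
    rw [mul_assoc, div_eq_mul_inv]
    refine mul_le_mul_of_nonneg_left ?_ hC0
    rw [div_mul_eq_mul_div, ← div_eq_mul_inv, div_div, inv_eq_one_div, div_le_div_iff₀ (by positivity) (by positivity)]
    have hx' := abs_lt.1 hx
    have h5 : (x0 - t) ^ 2 ≤ 2 * (x - t) ^ 2 + 2 := by nlinarith [sq_nonneg (x - t - (x0 - x)), sq_nonneg (x - t + (x0 - x))]
    have h6 : 0 ≤ (x - t) ^ 2 := sq_nonneg _
    have h7 : m * (x - t) ^ 2 ≤ B ^ 2 * (x - t) ^ 2 := mul_le_mul_of_nonneg_right hm2 h6
    rw [mul_pow]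
    nlinarith
  · exact Eventually.of_forall fun t => (Continuous.continuousAt (by fun_prop))

theorem MUL_fti (K : ℝ → ℂ) (B : ℝ) (hB : 0 < B) (x : ℝ) :
    fti (fun ξ => K (ξ / B)) x = (B : ℂ) * fti K (B * x) := by
  unfold fti
  have h1 := Measure.integral_comp_mul_left (fun ξ : ℝ => K (ξ / B) * Complex.exp (((2 * Real.pi * x * ξ : ℝ) : ℂ) * Complex.I)) B
  rw [abs_of_pos (inv_pos.2 hB)] at h1
  have h2 : ∫ ξ : ℝ, K (ξ / B) * Complex.exp (((2 * Real.pi * x * ξ : ℝ) : ℂ) * Complex.I) =
      B • ∫ ξ : ℝ, K (B * ξ / B) * Complex.exp (((2 * Real.pi * x * (B * ξ) : ℝ) : ℂ) * Complex.I) := by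
    rw [h1, smul_smul, mul_inv_cancel₀ hB.ne', one_smul]
  rw [h2, Complex.real_smul]
  congr 1
  refine integral_congr_ae (Eventually.of_forall fun ξ => ?_)
  show K (B * ξ / B) * Complex.exp (((2 * Real.pi * x * (B * ξ) : ℝ) : ℂ) * Complex.I) =
    K ξ * Complex.exp (((2 * Real.pi * (B * x) * ξ : ℝ) : ℂ) * Complex.I)
  rw [mul_div_cancel_left₀ ξ hB.ne']
  congr 4
  ring

theorem MUL_proof (hFT0 : FT0_stmt) (hPRD : PRD_stmt) : MUL_stmt := by
  intro K φ C hK hK1 hφK hφ h0 hC hint h1 B S hB hS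
  clear hFT0
  have hw : ∀ x, Integrable fun t => B * φ (B * (x - t)) := fun x => MUL_int φ hint B x hB
  have hw0 : ∀ x t, 0 ≤ B * φ (B * (x - t)) := fun x t => mul_nonneg hB.le (h0 _)
  have hw1 : ∀ x, ∫ t, B * φ (B * (x - t)) = 1 := fun x => by rw [MUL_sub φ B x hB, h1]
  have hcut0 : ∀ x, 0 ≤ cut φ B S x := fun x => setIntegral_nonneg hS fun t _ => hw0 x t
  have hcut1 : ∀ x, cut φ B S x ≤ 1 := fun x => by
    rw [← hw1 x]
    exact setIntegral_le_integral (hw x) (Eventually.of_forall fun t => hw0 x t)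
  have hc := MUL_cont φ C B S hφ h0 hC hB
  refine ⟨hc, fun x => ⟨hcut0 x, hcut1 x⟩, ?_, ?_, ?_⟩
  · intro X f hf
    have hBd : Bd (fat B X) := by
      obtain ⟨R, hR⟩ := hf.bd
      refine ⟨R + B, ?_⟩
      rintro y ⟨x, hx, hxy⟩
      have h2 := hR x hx
      have h3 : |y| ≤ |y - x| + |x| := by
        have := abs_add_le (y - x) x
        simpa using this
      linarith
    refine ⟨hBd, (Complex.continuous_ofReal.comp hc).mul hf.cont, ?_, ?_⟩
    · refine hf.int.bdd_mul (c := 1) (Complex.continuous_ofReal.comp hc).aestronglyMeasurable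
        (Eventually.of_forall fun x => ?_)
      rw [Complex.norm_real, Real.norm_eq_abs, abs_of_nonneg (hcut0 x)]
      exact hcut1 x
    · intro ξ hξ
      obtain ⟨k, hk⟩ : ∃ k : ℝ → ℂ, k = fun ξ => K (ξ / B) := ⟨_, rfl⟩
      have hkc : Continuous k := by
        rw [hk]
        exact hK.comp (continuous_id.div_const B)
      have hk0 : ∀ ξ, B < |ξ| → k ξ = 0 := by
        intro ξ hξ
        rw [hk]
        refine hK1 _ ?_
        rw [abs_div, abs_of_pos hB, lt_div_iff₀ hB]
        linarith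
      have hkf : ∀ x, fti k x = ((B * φ (B * x) : ℝ) : ℂ) := by
        intro x
        rw [hk, MUL_fti K B hB x, ← hφK]
        push_cast
        ring
      have hki : Integrable (fti k) := by
        have h2 : fti k = fun x => ((B * φ (B * x) : ℝ) : ℂ) := funext hkf
        rw [h2]
        exact ((hint.comp_mul_left' hB.ne').const_mul B).ofReal
      have hz : ∀ t, ft (fun x => f x * fti k (x - t)) ξ = 0 := fun t =>
        (hPRD X f k B t hB.le hf hkc hk0 hki).sp ξ hξ
      -- the function on the plane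
      have hg : Integrable fun u : ℝ => ((B * φ (B * (0 - u)) : ℝ) : ℂ) := (hw 0).ofReal
      have hP := Integrable.convolution_integrand (ContinuousLinearMap.mul ℝ ℂ) (μ := volume) (ν := volume) hf.int hg
      have hP2 : Integrable (fun p : ℝ × ℝ => (S.indicator (fun _ => (1 : ℂ)) p.1 *
          Complex.exp (((-(2 * Real.pi * p.2 * ξ) : ℝ) : ℂ) * Complex.I)) *
          ((ContinuousLinearMap.mul ℝ ℂ) (f p.2) ((B * φ (B * (0 - (p.1 - p.2))) : ℝ) : ℂ)))
          ((volume : Measure ℝ).prod volume) := by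
        refine hP.bdd_mul (c := 1) ?_ (Eventually.of_forall fun p => ?_)
        · refine Measurable.aestronglyMeasurable ?_
          refine Measurable.mul ?_ (Continuous.measurable (by fun_prop))
          exact (measurable_const.indicator hS).comp measurable_fst
        · rw [norm_mul, Complex.norm_exp_ofReal_mul_I, mul_one]
          by_cases h : p.1 ∈ S
          · rw [Set.indicator_of_mem h]
            simp
          · rw [Set.indicator_of_notMem h]
            simp
      have hsw := integral_integral_swap (f := fun t x : ℝ => (S.indicator (fun _ => (1 : ℂ)) t *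
          Complex.exp (((-(2 * Real.pi * x * ξ) : ℝ) : ℂ) * Complex.I)) *
          ((ContinuousLinearMap.mul ℝ ℂ) (f x) ((B * φ (B * (0 - (t - x))) : ℝ) : ℂ))) hP2
      have hL : ∫ t : ℝ, ∫ x : ℝ, (S.indicator (fun _ => (1 : ℂ)) t *
          Complex.exp (((-(2 * Real.pi * x * ξ) : ℝ) : ℂ) * Complex.I)) *
          ((ContinuousLinearMap.mul ℝ ℂ) (f x) ((B * φ (B * (0 - (t - x))) : ℝ) : ℂ)) = 0 := by
        have h2 : ∀ t : ℝ, ∫ x : ℝ, (S.indicator (fun _ => (1 : ℂ)) t *
          Complex.exp (((-(2 * Real.pi * x * ξ) : ℝ) : ℂ) * Complex.I)) *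
          ((ContinuousLinearMap.mul ℝ ℂ) (f x) ((B * φ (B * (0 - (t - x))) : ℝ) : ℂ)) =
            S.indicator (fun _ => (1 : ℂ)) t * ft (fun x => f x * fti k (x - t)) ξ := by
          intro t
          unfold ft
          rw [← integral_const_mul]
          refine integral_congr_ae (Eventually.of_forall fun x => ?_)
          show (S.indicator (fun _ => (1 : ℂ)) t *
            Complex.exp (((-(2 * Real.pi * x * ξ) : ℝ) : ℂ) * Complex.I)) *
            (f x * ((B * φ (B * (0 - (t - x))) : ℝ) : ℂ)) =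
            S.indicator (fun _ => (1 : ℂ)) t * (f x * fti k (x - t) *
            Complex.exp (((-(2 * Real.pi * x * ξ) : ℝ) : ℂ) * Complex.I))
          rw [hkf]
          have h3 : (0 : ℝ) - (t - x) = x - t := by ring
          rw [h3]
          ring
        simp only [h2, hz, mul_zero, integral_zero]
      have hR : ∫ x : ℝ, ∫ t : ℝ, (S.indicator (fun _ => (1 : ℂ)) t *
          Complex.exp (((-(2 * Real.pi * x * ξ) : ℝ) : ℂ) * Complex.I)) *
          ((ContinuousLinearMap.mul ℝ ℂ) (f x) ((B * φ (B * (0 - (t - x))) : ℝ) : ℂ)) =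
          ft (fun x => ((cut φ B S x : ℝ) : ℂ) * f x) ξ := by
        unfold ft
        refine integral_congr_ae (Eventually.of_forall fun x => ?_)
        show ∫ t : ℝ, (S.indicator (fun _ => (1 : ℂ)) t *
          Complex.exp (((-(2 * Real.pi * x * ξ) : ℝ) : ℂ) * Complex.I)) *
          (f x * ((B * φ (B * (0 - (t - x))) : ℝ) : ℂ)) =
          ((cut φ B S x : ℝ) : ℂ) * f x * Complex.exp (((-(2 * Real.pi * x * ξ) : ℝ) : ℂ) * Complex.I)
        have h2 : ∀ t : ℝ, (S.indicator (fun _ => (1 : ℂ)) t *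
          Complex.exp (((-(2 * Real.pi * x * ξ) : ℝ) : ℂ) * Complex.I)) *
          (f x * ((B * φ (B * (0 - (t - x))) : ℝ) : ℂ)) =
          S.indicator (fun t => ((B * φ (B * (x - t)) : ℝ) : ℂ)) t * (f x * Complex.exp (((-(2 * Real.pi * x * ξ) : ℝ) : ℂ) * Complex.I)) := by
          intro t
          have h3 : (0 : ℝ) - (t - x) = x - t := by ring
          rw [h3]
          by_cases h : t ∈ S
          · rw [Set.indicator_of_mem h, Set.indicator_of_mem h]
            ring
          · rw [Set.indicator_of_notMem h, Set.indicator_of_notMem h]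
            ring
        simp only [h2]
        rw [integral_mul_const, integral_indicator hS, integral_complex_ofReal]
        unfold cut
        ring
      rw [← hR, ← hsw, hL]
  · intro x d _ hd
    have h2 : (∫ t in S, B * φ (B * (x - t))) + ∫ t in Sᶜ, B * φ (B * (x - t)) = 1 := by
      rw [integral_add_compl hS (hw x), hw1]
    have h3 : ∫ t in Sᶜ, B * φ (B * (x - t)) ≤ ∫ t in {t : ℝ | B * d ≤ |B * (x - t)|}, B * φ (B * (x - t)) := by
      refine setIntegral_mono_set (hw x).integrableOn (Eventually.of_forall fun t => hw0 x t) ?_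
      refine Eventually.of_forall fun t ht => ?_
      show B * d ≤ |B * (x - t)|
      rw [abs_mul, abs_of_pos hB]
      exact mul_le_mul_of_nonneg_left (hd t ht) hB.le
    rw [MUL_tail φ B x d hB] at h3
    unfold cut
    linarith
  · intro x d _ hd
    have h3 : ∫ t in S, B * φ (B * (x - t)) ≤ ∫ t in {t : ℝ | B * d ≤ |B * (x - t)|}, B * φ (B * (x - t)) := by
      refine setIntegral_mono_set (hw x).integrableOn (Eventually.of_forall fun t => hw0 x t) ?_
      refine Eventually.of_forall fun t ht => ?_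
      show B * d ≤ |B * (x - t)|
      rw [abs_mul, abs_of_pos hB]
      exact mul_le_mul_of_nonneg_left (hd t ht) hB.le
    rw [MUL_tail φ B x d hB] at h3
    exact h3

end Pool.Agent.FD
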